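import Pool.Agent.Work.MP_69fea5_lc.C22.Defs

/-!
Block [69fea5 C22]: the statements of the items. Paper proof: note 4143.
-/

set_option autoImplicit false

namespace Pool.Agent.Work.MP_69fea5_lc.C22

open Pool.Agent.Work.MP_69fea5_lc

/-- [C22-PRIM] the colouring is computable in `g`. Use `rec_of_pre` (Comp.lean) with
`Φ L X = c22 (fun s => L.getD s 0) X`. Locality: `c22 g X` uses only the values `g s`, `s < X`:
in `tau g k Q` one has `2 ^ t ≤ Q`, so `t < Q ≤ X`, and in `st g X` one has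
`2 ^ (t + 1) ≤ od X ≤ X`. -/
def S_PRIM : Prop :=
  ∀ (O : Set (ℕ →. ℕ)) (g : ℕ → ℕ), Nat.RecursiveIn O (fun n => Part.some (g n)) →
    Nat.RecursiveIn O (fun n => Part.some (c22 g n))

/-- [C22-CORE] (helper78) the combinatorial core. -/
def S_CORE : Prop :=
  ∀ (g : ℕ → ℕ) (X : Set ℕ), Function.Injective g → IsSolution (c22 g) 2 X →
    ∃ Q : ℕ → Prop, PrimrecPred Q ∧
      (∀ e, ∃ x ∈ X, ∃ y ∈ X, Q x ∧ Q y ∧ e < kk x ∧ kk x < kk y) ∧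
      (∀ x ∈ X, ∀ y ∈ X, Q x → Q y → kk x < kk y → ∀ s, g s < kk x → s < x + y)

/-- [C22-RNG] from the core to the computation of the range: apply `range_rec` (Comp.lean) to the set
`X' = {p | p.unpair.1 ∈ X ∧ p.unpair.2 ∈ X ∧ Q p.unpair.1 ∧ Q p.unpair.2 ∧
kk p.unpair.1 < kk p.unpair.2}` (recursive in `X`), with `R e p = (e < kk p.unpair.1)` and
`Nat.add_le_pair : x + y ≤ Nat.pair x y`. -/
def S_RNG : Prop :=
  ∀ (O : Set (ℕ →. ℕ)) (g : ℕ → ℕ) (X : Set ℕ) (Q : ℕ → Prop),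
    Nat.RecursiveIn O (fun n => Part.some (g n)) → Nat.RecursiveIn O (charFn X) →
    PrimrecPred Q →
    (∀ e, ∃ x ∈ X, ∃ y ∈ X, Q x ∧ Q y ∧ e < kk x ∧ kk x < kk y) →
    (∀ x ∈ X, ∀ y ∈ X, Q x → Q y → kk x < kk y → ∀ s, g s < kk x → s < x + y) →
    Nat.RecursiveIn O (charFn (Set.range g))

/-- [C22-FIN] the reversal for two terms and two colours (copy of `N3.proj_of_sol3` in
N3/Final3.lean with `c2` replaced by `c22` and 3 by 2). -/
def S_PROJ : Prop :=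
  ∀ (S : Set (Set ℕ)),
    (∀ A ∈ S, ∀ B ∈ S, ∀ C : Set ℕ, RecursiveIn {charFn A, charFn B} (charFn C) → C ∈ S) →
    (∀ c : ℕ → Fin 2, (∀ i, {x | c x = i} ∈ S) →
      ∃ X ∈ S, X.Infinite ∧ (∀ x ∈ X, 0 < x) ∧ ∃ i, ∀ F : Finset ℕ, (F : Set ℕ) ⊆ X →
        F.Nonempty → F.card ≤ 2 → c (∑ x ∈ F, x) = i) →
    ∀ A ∈ S, {n | ∃ m, Nat.pair n m ∈ A} ∈ S

end Pool.Agent.Work.MP_69fea5_lc.C22
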