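import Pool.Agent.Work.MP_69fea5_lc.C22.CaseA
import Pool.Agent.Work.MP_69fea5_lc.C22.Stmts

/-!
Block [69fea5 C22]: Case B and the combinatorial core.
-/

set_option autoImplicit false

namespace Pool.Agent.Work.MP_69fea5_lc.C22

open Pool.Agent.Work.MP_69fea5_lc

variable {g : ℕ → ℕ} {s : ℕ}

/-- the odd part of a multiple of `M N` is large -/
theorem od_large {z N : ℕ} (hz : 0 < z) (h : N ≤ kk z) : M N ≤ od z := by
  refine Nat.le_of_dvd (od_pos hz) ((kk_pos_of (od_pos hz)).2 ?_)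
  rwa [kk_od hz]

/-- the congruence -/
theorem caseB_key {x z i : ℕ} (hx : 0 < x) (hz : 0 < z) (hs : IsLast g (kk x) s)
    (hc1 : c22 g x = i) (hc2 : c22 g (x + z) = i)
    (hkz : s + kk x + 2 + od x ≤ kk z)
    (hv : val 2 x < val 2 z ∨ (val 2 x = val 2 z ∧ od x % 4 = od z % 4)) :
    2 ^ s ≤ od x ∨ od z ≡ od x [MOD 2 ^ s] := by
  by_cases hlt : 2 ^ s ≤ od x
  · exact Or.inl hlt
  right
  push Not at hlt
  have hxz : 0 < x + z := by omega
  have hmod : ∀ t ≤ s + kk x + 2, x + z ≡ x [MOD M t] := by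
    intro t ht
    have h1 : M t ∣ z := (kk_pos_of hz).2 (by omega)
    have h2 : x + z ≡ x + 0 [MOD M t] := Nat.ModEq.add_left x (Nat.modEq_zero_iff_dvd.2 h1)
    simpa using h2
  have hk : kk (x + z) = kk x := kk_congr (a := 0) hx hxz (by simpa using hmod (kk x + 1) (by omega))
  have he : eo (x + z) = eo x := eo_congr hx hxz (hmod _ (by omega))
  have hp : ∀ r ≤ s, pit r (x + z) = pit r x := fun r hr => pit_congr (hmod r (by omega))
  -- sizes
  have hzl := od_large hz hkz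
  have hl1 := le_M (s + kk x + 2 + od x)
  have hl2 : 2 ^ (s + 1) ≤ 2 ^ (s + kk x + 2 + od x) :=
    Nat.pow_le_pow_right (by norm_num) (by omega)
  have hl3 : s + kk x + 2 + od x < 2 ^ (s + kk x + 2 + od x) := Nat.lt_two_pow_self
  have hs1 : 0 < 2 ^ s := by positivity
  rw [pow_succ] at hl2
  have hX : 2 ^ s ≤ od (x + z) := by
    rcases hv with h | ⟨h, h4⟩
    · rw [od_sum_lt hx hz h]
      have h5 : 1 * od z ≤ 2 ^ (val 2 z - val 2 x) * od z :=
        Nat.mul_le_mul_right _ (Nat.one_le_two_pow)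
      omega
    · have h5 := od_sum_eq hx hz h h4
      omega
  have h3 := st_ext (g := g) hx hxz hs hk hp hlt hX
  have hgood : Good g (kk x) (od x) (od (x + z)) := by
    by_contra hng
    have h4 : th g (x + z) = th g x + 1 := by
      conv_lhs => unfold th
      rw [h3, hk]
      unfold stp
      simp only
      rw [if_neg hng]
    unfold c22 at hc1 hc2
    rw [he, h4] at hc2
    omega
  rcases hgood with h4 | ⟨h4, h5⟩
  · have := od_pos hx
    omega
  rw [tau_eq hs hX] at h4 h5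
  rcases hv with h | ⟨h, h6⟩
  · rw [od_sum_lt hx hz h, Nat.add_sub_cancel_left, od_mul (exists_od hz).2] at h5
    exact h5
  · have h7 := od_sum_eq hx hz h h6
    have h8 : od x < od (x + z) := by omega
    have h9 : 2 ^ s ∣ od (x + z) - od x := (Nat.modEq_iff_dvd' h8.le).1 h4.symm
    have h10 : od z - od x = 2 * (od (x + z) - od x) := by omega
    have h11 : 2 ^ s ∣ od z - od x := by
      rw [h10]
      exact h9.mul_left 2
    exact ((Nat.modEq_iff_dvd' (by omega)).2 h11).symm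

/-- the last numbers increase -/
theorem last_mono {k k' s' : ℕ} (h : k ≤ k') (hs : IsLast g k s) (hs' : IsLast g k' s') :
    s ≤ s' := by
  rcases hs.2 with h1 | h1
  · omega
  · exact hs'.1 s (lt_of_lt_of_le h1 h)

/-- the bound -/
theorem caseB_bound {x y z i : ℕ} (hg : Function.Injective g) (hx : 0 < x) (hy : 0 < y)
    (hz : 0 < z) (hxy : kk x < kk y) (hs : IsLast g (kk x) s)
    (hcx : c22 g x = i) (hcy : c22 g y = i) (hcxz : c22 g (x + z) = i) (hcyz : c22 g (y + z) = i)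
    (hkz : ∀ s', IsLast g (kk y) s' → s' + kk y + 2 + od x + od y ≤ kk z)
    (hvx : val 2 x < val 2 z ∨ (val 2 x = val 2 z ∧ od x % 4 = od z % 4))
    (hvy : val 2 y < val 2 z ∨ (val 2 y = val 2 z ∧ od y % 4 = od z % 4)) :
    s < x + y := by
  obtain ⟨s', hs'⟩ := exists_last hg (kk y)
  have hss := last_mono hxy.le hs hs'
  have hk := hkz s' hs'
  have hlt : s < 2 ^ s := Nat.lt_two_pow_self
  have hox := od_le x
  have hoy := od_le y
  by_contra hc
  push Not at hc
  have hle : 2 ^ s ≤ 2 ^ s' := Nat.pow_le_pow_right (by norm_num) hss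
  rcases caseB_key hx hz hs hcx hcxz (by omega) hvx with h1 | h1
  · omega
  rcases caseB_key hy hz hs' hcy hcyz (by omega) hvy with h2 | h2
  · omega
  have h3 : od z ≡ od y [MOD 2 ^ s] := h2.of_dvd (pow_dvd_pow 2 hss)
  have h4 : od x ≡ od y [MOD 2 ^ s] := h1.symm.trans h3
  have h5 : od x = od y := h4.eq_of_lt_of_lt (by omega) (by omega)
  have h6 := kk_od hx
  have h7 := kk_od hy
  rw [h5] at h6
  omega

theorem primrec_od : Primrec od :=
  Primrec.nat_div.comp Primrec.id (primrec_pow.comp (Primrec.const 2) (primrec_val 2))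

/-- the core -/
theorem core_c22 : S_CORE := by
  intro g X hg hsol
  have hA := caseA hg hsol
  obtain ⟨hinf, hpos, i, hc1, hc2⟩ := sol_facts hsol
  -- a subset with the two properties
  have main : ∀ Q : ℕ → Prop, PrimrecPred Q → {x | x ∈ X ∧ Q x}.Infinite →
      (∀ x ∈ X, Q x → ∀ y ∈ X, Q y → ∀ N, ∃ z ∈ X, z ≠ x ∧ z ≠ y ∧ N ≤ kk z ∧
        (val 2 x < val 2 z ∨ (val 2 x = val 2 z ∧ od x % 4 = od z % 4)) ∧
        (val 2 y < val 2 z ∨ (val 2 y = val 2 z ∧ od y % 4 = od z % 4))) →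
      ∃ Q : ℕ → Prop, PrimrecPred Q ∧
        (∀ e, ∃ x ∈ X, ∃ y ∈ X, Q x ∧ Q y ∧ e < kk x ∧ kk x < kk y) ∧
        (∀ x ∈ X, ∀ y ∈ X, Q x → Q y → kk x < kk y → ∀ s, g s < kk x → s < x + y) := by
    intro Q hQ hQinf hz
    refine ⟨Q, hQ, ?_, ?_⟩
    · have h1 : ∀ e, ∃ x ∈ X, Q x ∧ e < kk x := by
        intro e
        obtain ⟨x, hx, hx'⟩ := (hQinf.sdiff (hA e)).nonempty
        refine ⟨x, hx.1, hx.2, ?_⟩
        by_contra hc
        exact hx' ⟨hx.1, by omega⟩
      intro e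
      obtain ⟨x, hx, hx1, hx2⟩ := h1 e
      obtain ⟨y, hy, hy1, hy2⟩ := h1 (kk x)
      exact ⟨x, hx, y, hy, hx1, hy1, hx2, hy2⟩
    · intro x hx y hy hQx hQy hxy t ht
      obtain ⟨s, hs⟩ := exists_last hg (kk x)
      obtain ⟨s', hs'⟩ := exists_last hg (kk y)
      obtain ⟨z, hzX, hzx, hzy, hzk, hvx, hvy⟩ :=
        hz x hx hQx y hy hQy (s' + kk y + 2 + od x + od y)
      have h1 := caseB_bound (z := z) (i := i) hg (hpos x hx) (hpos y hy) (hpos z hzX) hxy hs
        (hc1 x hx) (hc1 y hy) (hc2 x hx z hzX hzx.symm) (hc2 y hy z hzX hzy.symm)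
        (fun s'' hs'' => by
          have h2 := last_mono le_rfl hs'' hs'
          omega) hvx hvy
      have h2 := hs.1 t ht
      omega
  by_cases hv : ∀ m, ∃ y ∈ X, m ≤ val 2 y
  · -- all powers of two
    refine main (fun _ => True) ?_ (by simpa using hinf) ?_
    · exact (Primrec.eq.comp (Primrec.const 0) (Primrec.const 0)).of_eq (fun n => by simp)
    · intro x hx _ y hy _ N
      have h1 : {z | z ∈ X ∧ val 2 x + val 2 y < val 2 z}.Infinite := by
        intro hfin
        obtain ⟨b, hb⟩ := (hfin.image (val 2)).bddAbove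
        obtain ⟨z, hz, hz'⟩ := hv (b + val 2 x + val 2 y + 1)
        have h2 : val 2 z ≤ b := hb ⟨z, ⟨hz, by omega⟩, rfl⟩
        omega
      obtain ⟨z, hz, hz'⟩ := (h1.sdiff (hA N)).nonempty
      obtain ⟨hz1, hz2⟩ := hz
      refine ⟨z, hz1, fun h => ?_, fun h => ?_, ?_, Or.inl (by omega), Or.inl (by omega)⟩
      · subst h
        omega
      · subst h
        omega
      · by_contra hc
        exact hz' ⟨hz1, by omega⟩
  · push Not at hv
    obtain ⟨m, hm⟩ := hv
    obtain ⟨v, hv⟩ := pigeon hinf (val 2) m hm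
    obtain ⟨r, hr⟩ := pigeon hv (fun x => od x % 4) 4 (fun x _ => Nat.mod_lt _ (by norm_num))
    refine main (fun x => val 2 x = v ∧ od x % 4 = r) ?_ (hr.mono ?_) ?_
    · refine PrimrecPred.and ?_ ?_
      · exact Primrec.eq.comp (primrec_val 2) (Primrec.const v)
      · exact Primrec.eq.comp (Primrec.nat_mod.comp primrec_od (Primrec.const 4))
          (Primrec.const r)
    · rintro x ⟨⟨h1, h2⟩, h3⟩
      exact ⟨h1, h2, h3⟩
    · rintro x hx ⟨hx1, hx2⟩ y hy ⟨hy1, hy2⟩ N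
      obtain ⟨z, hz, hz'⟩ := ((hr.sdiff (hA N)).sdiff
        ((Set.finite_singleton x).union (Set.finite_singleton y))).nonempty
      obtain ⟨⟨⟨hz1, hz2⟩, hz3⟩, hz4⟩ := hz
      simp only [Set.mem_union, Set.mem_singleton_iff, not_or] at hz'
      refine ⟨z, hz1, hz'.1, hz'.2, ?_, Or.inr ⟨by rw [hx1, hz2], by rw [hx2]; exact hz3.symm⟩,
        Or.inr ⟨by rw [hy1, hz2], by rw [hy2]; exact hz3.symm⟩⟩
      by_contra hc
      exact hz4 ⟨hz1, by omega⟩

end Pool.Agent.Work.MP_69fea5_lc.C22
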