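import Pool.Agent.Work.MP_69fea5_lc.W3.FinalN
import Pool.Agent.Work.MP_69fea5_lc.C22.Stmts

/-!
# The final theorem, two terms and two colours included
-/

set_option autoImplicit false

namespace Pool.Agent.Work.MP_69fea5_lc.C22

open Pool.Agent.Work.MP_69fea5_lc
open Pool.Agent.Work.MP_69fea5_lc.KC (enum enum_inj mem_range_enum enum_rec)

variable {S : Set (Set ℕ)}

/-- the statement for `k ≥ 2` colours contains the statement for two colours -/
theorem sol_two_of {k m : ℕ} (hk : 2 ≤ k) (hm : 1 ≤ m)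
    (hS : ∀ A ∈ S, ∀ B ∈ S, ∀ C : Set ℕ, RecursiveIn {charFn A, charFn B} (charFn C) → C ∈ S)
    (hne : S.Nonempty)
    (h : ∀ c : ℕ → Fin k, (∀ i, {x | c x = i} ∈ S) →
      ∃ X ∈ S, X.Infinite ∧ (∀ x ∈ X, 0 < x) ∧ ∃ i, ∀ F : Finset ℕ, (F : Set ℕ) ⊆ X →
        F.Nonempty → F.card ≤ m → c (∑ x ∈ F, x) = i) :
    ∀ c : ℕ → Fin 2, (∀ i, {x | c x = i} ∈ S) →
      ∃ X ∈ S, X.Infinite ∧ (∀ x ∈ X, 0 < x) ∧ ∃ i, ∀ F : Finset ℕ, (F : Set ℕ) ⊆ X →
        F.Nonempty → F.card ≤ m → c (∑ x ∈ F, x) = i := by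
  classical
  intro c hc
  have hempty : (∅ : Set ℕ) ∈ S := by
    obtain ⟨A, hA⟩ := hne
    refine hS A hA A hA _ ?_
    rw [RecursiveIn.iff_nat]
    refine (comp_of (O := {charFn A, charFn A}) (f := fun _ : ℕ => 0)
      (Computable.const 0)).of_eq fun n => ?_
    simp [charFn]
  obtain ⟨X, hX, hinf, hpos, i, hi⟩ := h (fun x => Fin.castLE hk (c x)) (by
    intro i
    by_cases hi : ∃ j : Fin 2, Fin.castLE hk j = i
    · obtain ⟨j, rfl⟩ := hi
      have h1 : {x | Fin.castLE hk (c x) = Fin.castLE hk j} = {x | c x = j} := by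
        ext x
        exact ⟨fun h => Fin.castLE_injective hk h, fun h => congrArg _ h⟩
      rw [h1]
      exact hc j
    · have h1 : {x | Fin.castLE hk (c x) = i} = ∅ := by
        ext x
        simp only [Set.mem_ofPred_eq, Set.mem_empty_iff_false, iff_false]
        exact fun h => hi ⟨c x, h⟩
      rw [h1]
      exact hempty)
  refine ⟨X, hX, hinf, hpos, ?_⟩
  obtain ⟨x, hx⟩ := hinf.nonempty
  refine ⟨c x, fun F hF hFn hFc => ?_⟩
  have h1 := hi F hF hFn hFc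
  have h2 := hi {x} (by simpa using hx) (by simp) (by simpa using hm)
  rw [Finset.sum_singleton] at h2
  exact Fin.castLE_injective hk (h1.trans h2.symm)

/-- the reversal for two terms and two colours -/
theorem proj_of (hP : S_PRIM) (hC : S_CORE) (hR : S_RNG) : S_PROJ := by
  classical
  intro S hS h A hA
  have hAo : Nat.RecursiveIn {charFn A, charFn A} (charFn A) :=
    Nat.RecursiveIn.oracle (charFn A) (by simp)
  let g := enum A
  have hg : Function.Injective g := enum_inj A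
  let c : ℕ → Fin 2 := fun x => ⟨c22 g x, c22_lt g x⟩
  obtain ⟨X, hX, hinf, hpos, i, hi⟩ := h c (by
    intro i
    refine hS A hA A hA _ ?_
    rw [RecursiveIn.iff_nat]
    have h1 : Computable fun n : ℕ => if n = (i : ℕ) then 1 else 0 := by
      apply Primrec.to_comp
      exact Primrec.ite (PrimrecRel.comp Primrec.eq Primrec.id (Primrec.const (i : ℕ)))
        (Primrec.const 1) (Primrec.const 0)
    refine (comp_tot (comp_of h1) (hP _ g (enum_rec hAo))).of_eq fun n => ?_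
    simp [charFn, c, Fin.ext_iff])
  have hsol : IsSolution (c22 g) 2 X :=
    ⟨hinf, hpos, i, fun F hF hne hcard => congrArg Fin.val (hi F hF hne hcard)⟩
  refine hS A hA X hX _ ?_
  rw [RecursiveIn.iff_nat]
  obtain ⟨Q, hQ, hQ1, hQ2⟩ := hC g X hg hsol
  have hr : Nat.RecursiveIn {charFn A, charFn X} (charFn (Set.range g)) :=
    hR _ g X Q (enum_rec (Nat.RecursiveIn.oracle (charFn A) (by simp)))
      (Nat.RecursiveIn.oracle (charFn X) (by simp)) hQ hQ1 hQ2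
  let χ : ℕ → ℕ := fun n => if n ∈ Set.range g then 1 else 0
  have hχ : Nat.RecursiveIn {charFn A, charFn X} (fun n => Part.some (χ n)) :=
    hr.of_eq fun n => by simp [charFn, χ]
  have h2 : Computable fun n : ℕ => 2 * n :=
    (Primrec.nat_mul.comp (Primrec.const 2) Primrec.id).to_comp
  refine (comp_tot hχ (comp_of h2)).of_eq fun n => ?_
  have h3 := mem_range_enum A n
  have h4 : (n ∈ {n | ∃ m, Nat.pair n m ∈ A}) ↔ ∃ m, Nat.pair n m ∈ A := Iff.rfl
  simp only [charFn, χ]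
  congr 1
  exact if_congr (h3.trans h4.symm) rfl rfl

/-- the reversal, all numbers of terms and colours -/
theorem rev (hT : S_PROJ) (n k : ℕ) (hn : 2 ≤ n) (hk : 2 ≤ k) (hne : S.Nonempty)
    (hS : ∀ A ∈ S, ∀ B ∈ S, ∀ C : Set ℕ, RecursiveIn {charFn A, charFn B} (charFn C) → C ∈ S)
    (h : ∀ c : ℕ → Fin k, (∀ i, {x | c x = i} ∈ S) →
      ∃ X ∈ S, X.Infinite ∧ (∀ x ∈ X, 0 < x) ∧ ∃ i, ∀ F : Finset ℕ, (F : Set ℕ) ⊆ X →
        F.Nonempty → F.card ≤ n → c (∑ x ∈ F, x) = i) :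
    ∀ A ∈ S, {n | ∃ m, Nat.pair n m ∈ A} ∈ S := by
  refine hT S hS (sol_two_of hk (by norm_num) hS hne fun c hc => ?_)
  obtain ⟨X, hX, h1, h2, i, h3⟩ := h c hc
  exact ⟨X, hX, h1, h2, i, fun F hF hFn hc => h3 F hF hFn (hc.trans hn)⟩

/-- the exact strength -/
theorem final_of (hT : S_PROJ) (hM : HK.S_MAIN) (h3 : W3.S_MAINT) (hN : W3.S_MNN) (n k : ℕ)
    (hn : 2 ≤ n) (hk : 2 ≤ k) (hnk : n = 2 ∨ n = 3 ∨ k = 2) (S : Set (Set ℕ)) (hne : S.Nonempty)
    (hS : ∀ A ∈ S, ∀ B ∈ S, ∀ C : Set ℕ, RecursiveIn {charFn A, charFn B} (charFn C) → C ∈ S) :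
    (∀ c : ℕ → Fin k, (∀ i, {x | c x = i} ∈ S) →
      ∃ X ∈ S, X.Infinite ∧ (∀ x ∈ X, 0 < x) ∧ ∃ i, ∀ F : Finset ℕ, (F : Set ℕ) ⊆ X →
        F.Nonempty → F.card ≤ n → c (∑ x ∈ F, x) = i) ↔
    ∀ A ∈ S, {n | ∃ m, Nat.pair n m ∈ A} ∈ S := by
  refine ⟨rev hT n k hn hk hne hS, fun hp => ?_⟩
  by_cases h2 : k = 2
  · subst h2
    exact fun c hc => W3.n_two hN hne hS hp n c hc
  · refine (W3.finalN_of hM h3 hN n k ?_ S hne hS).2 hp
    rcases hnk with h | h | h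
    · exact Or.inl ⟨h, by omega⟩
    · exact Or.inr (Or.inl ⟨h, hk⟩)
    · exact absurd h h2

end Pool.Agent.Work.MP_69fea5_lc.C22
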