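import Pool.Agent.Work.MP_69fea5_lc.C22.Stmts

/-!
Block [69fea5 C22], item PRIM: the colouring is computable in `g`.
-/

set_option autoImplicit false

namespace Pool.Agent.Work.MP_69fea5_lc.C22

open Pool.Agent.Work.MP_69fea5_lc

namespace PRIM_aux

open Primrec

theorem primrec_two_pow : Primrec (fun t : ℕ => 2 ^ t) :=
  primrec_pow.comp (Primrec.const 2) Primrec.id

theorem primrec_M : Primrec M :=
  Primrec.nat_sub.comp (primrec_two_pow.comp primrec_two_pow) (Primrec.const 1)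

theorem primrec_kk : Primrec kk :=
  Primrec.nat_findGreatest Primrec.id
    (Primrec.eq.comp (Primrec.nat_mod.comp fst (primrec_M.comp snd)) (Primrec.const 0))

theorem primrec_od : Primrec od :=
  Primrec.nat_div.comp Primrec.id (primrec_two_pow.comp (primrec_val 2))

theorem all_lt {β : Type*} [Primcodable β] {R : ℕ → β → Prop} (hR : PrimrecRel R) :
    PrimrecRel (fun (n : ℕ) (y : β) => ∀ x < n, R x y) :=
  ((PrimrecRel.forall_mem_list hR).comp (Primrec.list_range.comp fst) snd).of_eq (by simp)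

theorem ex_lt {β : Type*} [Primcodable β] {R : ℕ → β → Prop} (hR : PrimrecRel R) :
    PrimrecRel (fun (n : ℕ) (y : β) => ∃ x < n, R x y) :=
  ((PrimrecRel.exists_mem_list hR).comp (Primrec.list_range.comp fst) snd).of_eq (by simp)

theorem primrec_eo : Primrec eo := by
  have hk1 : Primrec (fun X : ℕ => kk X + 1) := Primrec.succ.comp primrec_kk
  have hR : PrimrecRel (fun (b : ℕ) (p : ℕ × ℕ) =>
      (2 ^ p.2 * p.1) % M (kk p.1 + 1) ≤ (2 ^ b * p.1) % M (kk p.1 + 1)) := by
    refine Primrec.nat_le.comp ?_ ?_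
    · exact Primrec.nat_mod.comp
        (Primrec.nat_mul.comp (primrec_two_pow.comp (snd.comp snd)) (fst.comp snd))
        (primrec_M.comp (hk1.comp (fst.comp snd)))
    · exact Primrec.nat_mod.comp
        (Primrec.nat_mul.comp (primrec_two_pow.comp fst) (fst.comp snd))
        (primrec_M.comp (hk1.comp (fst.comp snd)))
  have hp : PrimrecRel (fun X a : ℕ => ∀ b < 2 ^ (kk X + 1),
      (2 ^ a * X) % M (kk X + 1) ≤ (2 ^ b * X) % M (kk X + 1)) := by
    have h := (all_lt hR).comp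
      (primrec_two_pow.comp (hk1.comp (Primrec.fst (α := ℕ) (β := ℕ))))
      (Primrec.id (α := ℕ × ℕ))
    exact h
  exact Primrec.nat_findGreatest
    (Primrec.nat_sub.comp (primrec_two_pow.comp hk1) (Primrec.const 1)) hp

theorem primrec_pit : Primrec₂ pit := by
  have hR : PrimrecRel (fun (a : ℕ) (p : (ℕ × ℕ) × ℕ) =>
      (2 ^ a * p.2) % M p.1.1 = p.1.2 % M p.1.1) := by
    refine Primrec.eq.comp ?_ ?_
    · exact Primrec.nat_mod.comp
        (Primrec.nat_mul.comp (primrec_two_pow.comp fst) (snd.comp snd))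
        (primrec_M.comp (fst.comp (fst.comp snd)))
    · exact Primrec.nat_mod.comp (snd.comp (fst.comp snd))
        (primrec_M.comp (fst.comp (fst.comp snd)))
  have hp : PrimrecRel (fun (q : ℕ × ℕ) (P : ℕ) => P % 2 = 1 ∧
      ∃ a < 2 ^ q.1, (2 ^ a * P) % M q.1 = q.2 % M q.1) := by
    refine PrimrecPred.and ?_ ?_
    · exact Primrec.eq.comp (Primrec.nat_mod.comp snd (Primrec.const 2)) (Primrec.const 1)
    · have h := (ex_lt hR).comp
        (primrec_two_pow.comp (fst.comp (Primrec.fst (α := ℕ × ℕ) (β := ℕ))))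
        (Primrec.id (α := (ℕ × ℕ) × ℕ))
      exact h
  exact Primrec.nat_findGreatest (Primrec.nat_sub.comp (primrec_two_pow.comp fst)
    (Primrec.const 1)) hp

/-- the function given by a list -/
def gL (L : List ℕ) : ℕ → ℕ := fun s => L.getD s 0

theorem primrec_gL : Primrec₂ gL := Primrec.list_getD 0

theorem primrec_tau : Primrec (fun p : List ℕ × ℕ × ℕ => tau (gL p.1) p.2.1 p.2.2) := by
  have hp : PrimrecRel (fun (p : List ℕ × ℕ × ℕ) (t : ℕ) => gL p.1 t < p.2.1 ∧ 2 ^ t ≤ p.2.2) := by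
    refine PrimrecPred.and ?_ ?_
    · exact Primrec.nat_lt.comp (primrec_gL.comp (fst.comp fst) snd)
        (fst.comp (snd.comp fst))
    · exact Primrec.nat_le.comp (primrec_two_pow.comp snd) (snd.comp (snd.comp fst))
  exact Primrec.nat_findGreatest (snd.comp snd) hp

theorem primrec_Good : PrimrecPred (fun p : (List ℕ × ℕ) × ℕ × ℕ =>
    Good (gL p.1.1) p.1.2 p.2.1 p.2.2) := by
  have ht : Primrec (fun p : (List ℕ × ℕ) × ℕ × ℕ => 2 ^ tau (gL p.1.1) p.1.2 p.2.2) :=
    primrec_two_pow.comp (primrec_tau.comp (Primrec.pair (fst.comp fst)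
      (Primrec.pair (snd.comp fst) (snd.comp snd))))
  refine PrimrecPred.or ?_ (PrimrecPred.and ?_ ?_)
  · exact Primrec.eq.comp (fst.comp snd) (Primrec.const 0)
  · exact Primrec.eq.comp (Primrec.nat_mod.comp (snd.comp snd) ht)
      (Primrec.nat_mod.comp (fst.comp snd) ht)
  · exact Primrec.eq.comp
      (Primrec.nat_mod.comp (primrec_od.comp (Primrec.nat_sub.comp (snd.comp snd)
        (fst.comp snd))) ht)
      (Primrec.nat_mod.comp (fst.comp snd) ht)

theorem primrec_stp : Primrec (fun p : (List ℕ × ℕ) × (ℕ × ℕ) × ℕ =>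
    stp (gL p.1.1) p.1.2 p.2.1 p.2.2) := by
  unfold stp
  refine Primrec.nat_add.comp (snd.comp (fst.comp snd)) (Primrec.ite ?_ (Primrec.const 0)
    (Primrec.const 1))
  exact primrec_Good.comp (Primrec.pair fst (Primrec.pair (fst.comp (fst.comp snd))
    (snd.comp snd)))

theorem primrec_st : Primrec₂ (fun (p : List ℕ × ℕ) (t : ℕ) => st (gL p.1) p.2 t) := by
  let step : List ℕ × ℕ → ℕ × (ℕ × ℕ) → ℕ × ℕ := fun p r =>
    if gL p.1 (r.1 + 1) < kk p.2 ∧ 2 ^ (r.1 + 1) ≤ od p.2 ∧ pit (r.1 + 1) p.2 ≠ 0 ∧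
        pit (r.1 + 1) p.2 ≠ r.2.1 then
      (pit (r.1 + 1) p.2, stp (gL p.1) (kk p.2) r.2 (pit (r.1 + 1) p.2))
    else r.2
  have ht : Primrec (fun z : (List ℕ × ℕ) × (ℕ × (ℕ × ℕ)) => z.2.1 + 1) :=
    Primrec.succ.comp (fst.comp snd)
  have hX : Primrec (fun z : (List ℕ × ℕ) × (ℕ × (ℕ × ℕ)) => z.1.2) := snd.comp fst
  have hL : Primrec (fun z : (List ℕ × ℕ) × (ℕ × (ℕ × ℕ)) => z.1.1) := fst.comp fst
  have hpit : Primrec (fun z : (List ℕ × ℕ) × (ℕ × (ℕ × ℕ)) => pit (z.2.1 + 1) z.1.2) :=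
    primrec_pit.comp ht hX
  have hstep : Primrec₂ step := by
    refine Primrec.ite ?_ (Primrec.pair hpit ?_) (snd.comp snd)
    · refine PrimrecPred.and ?_ (PrimrecPred.and ?_ (PrimrecPred.and ?_ ?_))
      · exact Primrec.nat_lt.comp (primrec_gL.comp hL ht) (primrec_kk.comp hX)
      · exact Primrec.nat_le.comp (primrec_two_pow.comp ht) (primrec_od.comp hX)
      · exact PrimrecPred.not (Primrec.eq.comp hpit (Primrec.const 0))
      · exact PrimrecPred.not (Primrec.eq.comp hpit (fst.comp (snd.comp snd)))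
    · exact primrec_stp.comp (Primrec.pair (Primrec.pair hL (primrec_kk.comp hX))
        (Primrec.pair (snd.comp snd) hpit))
  refine (Primrec.nat_rec (f := fun _ => ((0, 0) : ℕ × ℕ)) (Primrec.const _) hstep).of_eq ?_
  intro p t
  induction t with
  | zero => rfl
  | succ t ih =>
    change step p (t, _) = st (gL p.1) p.2 (t + 1)
    rw [ih, st]

theorem primrec_c22 : Primrec₂ (fun (L : List ℕ) (X : ℕ) => c22 (gL L) X) := by
  unfold c22 th
  refine Primrec.nat_mod.comp (Primrec.nat_add.comp (primrec_eo.comp snd) ?_) (Primrec.const 2)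
  exact primrec_stp.comp (Primrec.pair (Primrec.pair fst (primrec_kk.comp snd))
    (Primrec.pair (primrec_st.comp Primrec.id snd) (primrec_od.comp snd)))

/-! locality -/

theorem lt_two_pow (t : ℕ) : t < 2 ^ t := Nat.lt_two_pow_self

theorem tau_local {g g' : ℕ → ℕ} {N : ℕ} (hN : ∀ s < N, g s = g' s) (k Q : ℕ) (hQ : Q ≤ N) :
    tau g k Q = tau g' k Q := by
  unfold tau
  congr 1
  ext t
  constructor
  · rintro ⟨h1, h2⟩
    have := lt_two_pow t
    exact ⟨by rw [← hN t (by omega)]; exact h1, h2⟩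
  · rintro ⟨h1, h2⟩
    have := lt_two_pow t
    exact ⟨by rw [hN t (by omega)]; exact h1, h2⟩

theorem stp_local {g g' : ℕ → ℕ} {N : ℕ} (hN : ∀ s < N, g s = g' s) (k : ℕ) (p : ℕ × ℕ) (Q : ℕ)
    (hQ : Q ≤ N) : stp g k p Q = stp g' k p Q := by
  have h : Good g k p.1 Q ↔ Good g' k p.1 Q := by
    unfold Good
    rw [tau_local hN k Q hQ]
  unfold stp
  by_cases h1 : Good g k p.1 Q
  · rw [if_pos h1, if_pos (h.1 h1)]
  · rw [if_neg h1, if_neg (fun h2 => h1 (h.2 h2))]

theorem pit_lt (t X : ℕ) : pit t X < 2 ^ t := by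
  have h : pit t X ≤ 2 ^ t - 1 := Nat.findGreatest_le _
  have := Nat.pos_of_neZero (2 ^ t)
  omega

theorem od_le (X : ℕ) : od X ≤ X := Nat.div_le_self _ _

theorem st_local {g g' : ℕ → ℕ} {X : ℕ} (hN : ∀ s < X, g s = g' s) (t : ℕ) :
    st g X t = st g' X t := by
  induction t with
  | zero => rfl
  | succ t ih =>
    rw [st, st, ih]
    by_cases h : 2 ^ (t + 1) ≤ od X
    · have h1 := lt_two_pow (t + 1)
      have h2 := od_le X
      have h3 := pit_lt (t + 1) X
      rw [hN (t + 1) (by omega), stp_local hN _ _ _ (by omega)]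
    · rw [if_neg (by tauto), if_neg (by tauto)]

theorem c22_local {g g' : ℕ → ℕ} {X : ℕ} (hN : ∀ s < X, g s = g' s) : c22 g X = c22 g' X := by
  unfold c22 th
  rw [st_local hN, stp_local hN _ _ _ (od_le X)]

end PRIM_aux

open PRIM_aux in
theorem prim_c22 : S_PRIM := by
  intro O g hg
  refine rec_of_pre (Φ := fun L X => c22 (gL L) X) hg primrec_c22 ?_
  intro X
  apply c22_local
  intro s hs
  exact (pre_getD _ _ _ hs).symm

end Pool.Agent.Work.MP_69fea5_lc.C22
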