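import Pool.Agent.Work.MP_69fea5_lc.C22.Stmts

/-!
Block [69fea5 C22]: item RNG.
-/

set_option autoImplicit false

namespace Pool.Agent.Work.MP_69fea5_lc.C22

open Pool.Agent.Work.MP_69fea5_lc

theorem primrec_M : Primrec M :=
  Primrec.nat_sub.comp (primrec_pow.comp (Primrec.const 2)
    (primrec_pow.comp (Primrec.const 2) Primrec.id)) (Primrec.const 1)

theorem primrec_kk : Primrec kk :=
  Primrec.nat_findGreatest Primrec.id
    (Primrec.eq.comp (Primrec.nat_mod.comp Primrec.fst (primrec_M.comp Primrec.snd))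
      (Primrec.const 0))

/-- pairs of elements of `X` -/
theorem pairs_rec {O : Set (ℕ →. ℕ)} {X : Set ℕ} (hX : Nat.RecursiveIn O (charFn X)) :
    Nat.RecursiveIn O (charFn {p | p.unpair.1 ∈ X ∧ p.unpair.2 ∈ X}) := by
  classical
  let χ : ℕ → ℕ := fun n => if n ∈ X then 1 else 0
  have hχ : Nat.RecursiveIn O (fun n => Part.some (χ n)) := hX.of_eq fun n => by
    simp [charFn, χ]
  have h1 : Nat.RecursiveIn O (fun p : ℕ => Part.some (χ p.unpair.1)) :=
    comp_tot hχ (comp_of (Primrec.fst.comp Primrec.unpair).to_comp)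
  have h2 : Nat.RecursiveIn O (fun p : ℕ => Part.some (χ p.unpair.2)) :=
    comp_tot hχ (comp_of (Primrec.snd.comp Primrec.unpair).to_comp)
  have hm : Computable (fun p : ℕ => p.unpair.1 * p.unpair.2) :=
    (Primrec.nat_mul.comp (Primrec.fst.comp Primrec.unpair)
      (Primrec.snd.comp Primrec.unpair)).to_comp
  refine (comp_tot (comp_of hm) (pair_tot h1 h2)).of_eq fun p => ?_
  simp only [charFn, χ, Nat.unpair_pair]
  congr 1
  by_cases ha : p.unpair.1 ∈ X <;> by_cases hb : p.unpair.2 ∈ X <;> simp [ha, hb]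

theorem rng : S_RNG := by
  intro O g X Q hg hX hQ h1 h2
  have hu1 : Primrec (fun q : ℕ × ℕ => q.2.unpair.1) :=
    Primrec.fst.comp (Primrec.unpair.comp Primrec.snd)
  have hu2 : Primrec (fun q : ℕ × ℕ => q.2.unpair.2) :=
    Primrec.snd.comp (Primrec.unpair.comp Primrec.snd)
  refine range_rec (X := {p | p.unpair.1 ∈ X ∧ p.unpair.2 ∈ X})
    (R := fun e p => (Q p.unpair.1 ∧ Q p.unpair.2) ∧ e < kk p.unpair.1 ∧
      kk p.unpair.1 < kk p.unpair.2) hg (pairs_rec hX) ?_ ?_ ?_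
  · refine PrimrecPred.and (PrimrecPred.and ?_ ?_) (PrimrecPred.and ?_ ?_)
    · exact hQ.comp hu1
    · exact hQ.comp hu2
    · exact Primrec.nat_lt.comp Primrec.fst (primrec_kk.comp hu1)
    · exact Primrec.nat_lt.comp (primrec_kk.comp hu1) (primrec_kk.comp hu2)
  · intro e
    obtain ⟨x, hx, y, hy, hqx, hqy, he, hk⟩ := h1 e
    refine ⟨Nat.pair x y, ?_, ?_⟩
    · simpa using ⟨hx, hy⟩
    · simpa using ⟨⟨hqx, hqy⟩, he, hk⟩
  · rintro e p ⟨hpx, hpy⟩ ⟨⟨hqx, hqy⟩, he, hk⟩ s hs rfl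
    have h3 := h2 _ hpx _ hpy hqx hqy hk s he
    have h4 := Nat.add_le_pair p.unpair.1 p.unpair.2
    rw [Nat.pair_unpair] at h4
    omega

end Pool.Agent.Work.MP_69fea5_lc.C22
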