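import Pool.Agent.Work.MP_69fea5_lc.C22.Defs

/-!
Block [69fea5 C22]: arithmetic of `M`, `kk`, `od`, `eo`, `pit`.
-/

set_option autoImplicit false

namespace Pool.Agent.Work.MP_69fea5_lc.C22

open Pool.Agent.Work.MP_69fea5_lc

/-! ### odd parts -/

theorem od_mul {b w : ℕ} (hw : w % 2 = 1) : od (2 ^ b * w) = w := by
  unfold od
  rw [val_mul (by norm_num) (by omega), Nat.mul_div_cancel_left _ (by positivity)]

theorem val_mul2 {b w : ℕ} (hw : w % 2 = 1) : val 2 (2 ^ b * w) = b :=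
  val_mul (by norm_num) (by omega)

theorem exists_od {X : ℕ} (hX : 0 < X) : X = 2 ^ val 2 X * od X ∧ od X % 2 = 1 := by
  obtain ⟨b, w, hw, h⟩ := Nat.exists_eq_two_pow_mul_odd hX.ne'
  have hw' : w % 2 = 1 := Nat.odd_iff.1 hw
  subst h
  rw [val_mul2 hw', od_mul hw']
  exact ⟨rfl, hw'⟩

theorem od_pos {X : ℕ} (hX : 0 < X) : 0 < od X := by
  have := (exists_od hX).2
  omega

theorem od_odd {w : ℕ} (hw : w % 2 = 1) : od w = w := by
  have := od_mul (b := 0) hw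
  simpa using this

theorem od_le (X : ℕ) : od X ≤ X := Nat.div_le_self _ _

/-! ### the moduli -/

theorem M_pos (t : ℕ) : 0 < M t := by
  unfold M
  have : 2 ^ 1 ≤ 2 ^ 2 ^ t := Nat.pow_le_pow_right (by norm_num) Nat.one_le_two_pow
  omega

theorem M_add_one (t : ℕ) : M t + 1 = 2 ^ 2 ^ t := by
  unfold M
  have : 0 < 2 ^ 2 ^ t := by positivity
  omega

theorem M_odd (t : ℕ) : M t % 2 = 1 := by
  have h1 := M_add_one t
  have h2 : 2 ∣ 2 ^ 2 ^ t := dvd_pow_self 2 (by positivity)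
  omega

theorem M_coprime (t a : ℕ) : Nat.Coprime (M t) (2 ^ a) :=
  Nat.Coprime.pow_right a (Nat.coprime_two_right.2 (Nat.odd_iff.2 (M_odd t)))

theorem M_dvd {s t : ℕ} (h : s ≤ t) : M s ∣ M t := by
  unfold M
  exact Nat.pow_sub_one_dvd_pow_sub_one 2 (Nat.pow_dvd_pow 2 h)

theorem le_M (t : ℕ) : 2 ^ t ≤ M t + 1 := by
  rw [M_add_one]
  exact Nat.pow_le_pow_right (by norm_num) (Nat.lt_two_pow_self).le

theorem lt_M {t : ℕ} : t < M t + 1 := lt_of_lt_of_le Nat.lt_two_pow_self (le_M t)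

theorem M_succ (k : ℕ) : M (k + 1) = M k * (2 ^ 2 ^ k + 1) := by
  have h1 := M_add_one k
  have h2 := M_add_one (k + 1)
  have h3 : 2 ^ 2 ^ (k + 1) = 2 ^ 2 ^ k * 2 ^ 2 ^ k := by
    rw [← pow_add]
    congr 1
    ring
  have h4 : M (k + 1) + 1 = (M k + 1) * (M k + 1) := by rw [h2, h3, h1]
  have h5 : M k * (2 ^ 2 ^ k + 1) + 1 = (M k + 1) * (M k + 1) := by
    rw [← h1]
    ring
  omega

/-- `2 ^ 2 ^ t = 1` modulo `M t` -/
theorem two_pow_mod (t : ℕ) : 2 ^ 2 ^ t ≡ 1 [MOD M t] := by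
  rw [← M_add_one]
  have : M t + 1 ≡ 0 + 1 [MOD M t] := Nat.ModEq.add_right 1 (by simp [Nat.ModEq])
  simp

/-- exponents modulo `2 ^ t` -/
theorem pow_mod_exp (t a : ℕ) : 2 ^ a ≡ 2 ^ (a % 2 ^ t) [MOD M t] := by
  conv_lhs => rw [← Nat.div_add_mod a (2 ^ t), pow_add, pow_mul]
  have h := ((two_pow_mod t).pow (a / 2 ^ t)).mul_right (2 ^ (a % 2 ^ t))
  simpa using h

/-! ### `kk` -/

theorem kk_eq {X k : ℕ} (h1 : M k ∣ X) (h2 : ¬ M (k + 1) ∣ X) (hX : 0 < X) : kk X = k := by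
  unfold kk
  rw [Nat.findGreatest_eq_iff]
  refine ⟨?_, fun _ => Nat.mod_eq_zero_of_dvd h1, ?_⟩
  · have h3 := Nat.le_of_dvd hX h1
    have h4 := lt_M (t := k)
    omega
  · intro n hn _ h3
    exact h2 ((M_dvd hn).trans (Nat.dvd_of_mod_eq_zero h3))

theorem kk_spec {X : ℕ} (hX : 0 < X) : M (kk X) ∣ X ∧ ¬ M (kk X + 1) ∣ X := by
  constructor
  · have : X % M (kk X) = 0 := by
      unfold kk
      exact Nat.findGreatest_spec (P := fun k => X % M k = 0) (Nat.zero_le X)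
        (by simp [M, Nat.mod_one])
    exact Nat.dvd_of_mod_eq_zero this
  · intro h
    have h1 : kk X + 1 ≤ X := by
      have h2 := Nat.le_of_dvd hX h
      have h3 := lt_M (t := kk X + 1)
      omega
    have := Nat.le_findGreatest (P := fun k => X % M k = 0) h1 (Nat.mod_eq_zero_of_dvd h)
    unfold kk at *
    omega

theorem kk_pos_of {X k : ℕ} (hX : 0 < X) : M k ∣ X ↔ k ≤ kk X := by
  constructor
  · intro h
    by_contra hc
    push Not at hc
    exact (kk_spec hX).2 ((M_dvd hc).trans h)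
  · intro h
    exact (M_dvd h).trans (kk_spec hX).1

/-- the numbers congruent to `2 ^ a X` modulo `M (kk X + 1)` -/
theorem kk_congr {X Y a : ℕ} (hX : 0 < X) (hY : 0 < Y)
    (h : Y ≡ 2 ^ a * X [MOD M (kk X + 1)]) : kk Y = kk X := by
  have hd : ∀ t ≤ kk X + 1, (M t ∣ Y ↔ M t ∣ X) := by
    intro t ht
    have h1 : Y ≡ 2 ^ a * X [MOD M t] := h.of_dvd (M_dvd ht)
    rw [h1.dvd_iff (dvd_refl _)]
    exact ⟨fun h2 => (M_coprime t a).dvd_of_dvd_mul_left h2, fun h2 => h2.mul_left _⟩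
  refine kk_eq ((hd _ (by omega)).2 (kk_spec hX).1) (fun h2 => ?_) hY
  exact (kk_spec hX).2 ((hd _ le_rfl).1 h2)

theorem kk_od {X : ℕ} (hX : 0 < X) : kk (od X) = kk X := by
  refine (kk_congr (a := val 2 X) (od_pos hX) hX ?_).symm
  exact (congrArg (· % _) (exists_od hX).1)

/-! ### the period of the orbits -/

theorem coprime_F {k d : ℕ} (hd : 0 < d) (hd2 : d < 2 ^ (k + 1)) :
    Nat.Coprime (2 ^ d - 1) (2 ^ 2 ^ k + 1) := by
  set q := Nat.gcd (2 ^ d - 1) (2 ^ 2 ^ k + 1) with hq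
  have h1 : q ∣ 2 ^ d - 1 := Nat.gcd_dvd_left _ _
  have h2 : q ∣ 2 ^ 2 ^ k + 1 := Nat.gcd_dvd_right _ _
  have h3 : q ∣ M (k + 1) := by
    rw [M_succ]
    exact h2.mul_left _
  -- the gcd of `2 ^ d - 1` and `M (k + 1)`
  have h4 : q ∣ 2 ^ Nat.gcd d (2 ^ (k + 1)) - 1 := by
    rw [← Nat.pow_sub_one_gcd_pow_sub_one]
    exact Nat.dvd_gcd h1 h3
  obtain ⟨j, hj, hj2⟩ := (Nat.dvd_prime_pow Nat.prime_two).1 (Nat.gcd_dvd_right d (2 ^ (k + 1)))
  have hjk : j ≤ k := by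
    by_contra hc
    have hj3 : j = k + 1 := by omega
    have h5 : 2 ^ (k + 1) ∣ d := by
      rw [← hj3, ← hj2]
      exact Nat.gcd_dvd_left _ _
    have := Nat.le_of_dvd hd h5
    omega
  have h5 : q ∣ M k := by
    rw [hj2] at h4
    exact h4.trans (M_dvd hjk)
  have h6 : q ∣ 2 := by
    have h7 : 2 ^ 2 ^ k + 1 = M k + 2 := by
      have := M_add_one k
      omega
    rw [h7] at h2
    exact (Nat.dvd_add_right h5).1 h2
  have h8 : q ≠ 2 := by
    intro h9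
    have h10 : 2 ∣ M k := h9 ▸ h5
    have := M_odd k
    omega
  have h11 := (Nat.dvd_prime Nat.prime_two).1 h6
  rcases h11 with h12 | h12
  · exact h12
  · exact absurd h12 h8

/-- different elements of the orbit -/
theorem orbit_inj {X a b : ℕ} (hX : 0 < X) (hab : a < b) (hb : b < 2 ^ (kk X + 1)) :
    ¬ 2 ^ a * X ≡ 2 ^ b * X [MOD M (kk X + 1)] := by
  intro h
  obtain ⟨hk1, hk2⟩ := kk_spec hX
  obtain ⟨u, hu⟩ := hk1
  set k := kk X with hk
  have h1 : M (k + 1) ∣ 2 ^ b * X - 2 ^ a * X :=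
    (Nat.modEq_iff_dvd' (Nat.mul_le_mul_right _ (Nat.pow_le_pow_right (by norm_num) hab.le))).1 h
  have h2 : 2 ^ b * X - 2 ^ a * X = 2 ^ a * ((2 ^ (b - a) - 1) * X) := by
    have h3 : b = a + (b - a) := by omega
    conv_lhs => rw [h3, pow_add]
    rw [Nat.sub_mul, Nat.mul_sub, one_mul, mul_assoc]
  rw [h2] at h1
  have h4 : M (k + 1) ∣ (2 ^ (b - a) - 1) * X := (M_coprime (k + 1) a).dvd_of_dvd_mul_left h1
  rw [M_succ, hu, mul_left_comm] at h4
  have h5 : (2 ^ 2 ^ k + 1) ∣ (2 ^ (b - a) - 1) * u := Nat.dvd_of_mul_dvd_mul_left (M_pos k) h4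
  have h6 := coprime_F (k := k) (d := b - a) (by omega) (by omega)
  have h7 : (2 ^ 2 ^ k + 1) ∣ u := h6.symm.dvd_of_dvd_mul_left h5
  apply hk2
  rw [hu, M_succ]
  exact Nat.mul_dvd_mul_left _ h7

/-! ### `eo` -/

/-- the property of `eo` -/
theorem eo_spec {X : ℕ} (_hX : 0 < X) : eo X < 2 ^ (kk X + 1) ∧ ∀ b < 2 ^ (kk X + 1),
    (2 ^ eo X * X) % M (kk X + 1) ≤ (2 ^ b * X) % M (kk X + 1) := by
  have hN : 0 < 2 ^ (kk X + 1) := by positivity
  obtain ⟨a, ha, hmin⟩ := Finset.exists_min_image (Finset.range (2 ^ (kk X + 1)))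
    (fun a => (2 ^ a * X) % M (kk X + 1)) ⟨0, Finset.mem_range.2 hN⟩
  have h1 := Nat.findGreatest_spec (P := fun a => ∀ b < 2 ^ (kk X + 1),
    (2 ^ a * X) % M (kk X + 1) ≤ (2 ^ b * X) % M (kk X + 1)) (n := 2 ^ (kk X + 1) - 1)
    (m := a) (by have := Finset.mem_range.1 ha; omega)
    (fun b hb => hmin b (Finset.mem_range.2 hb))
  refine ⟨?_, h1⟩
  have h2 := Nat.findGreatest_le (P := fun a => ∀ b < 2 ^ (kk X + 1),
    (2 ^ a * X) % M (kk X + 1) ≤ (2 ^ b * X) % M (kk X + 1)) (2 ^ (kk X + 1) - 1)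
  unfold eo
  omega

theorem eo_unique {X a : ℕ} (hX : 0 < X) (ha : a < 2 ^ (kk X + 1))
    (h : ∀ b < 2 ^ (kk X + 1), (2 ^ a * X) % M (kk X + 1) ≤ (2 ^ b * X) % M (kk X + 1)) :
    eo X = a := by
  obtain ⟨h1, h2⟩ := eo_spec hX
  have h3 : 2 ^ a * X ≡ 2 ^ eo X * X [MOD M (kk X + 1)] := le_antisymm (h _ h1) (h2 _ ha)
  rcases lt_trichotomy a (eo X) with h4 | h4 | h4
  · exact absurd h3 (orbit_inj hX h4 h1)
  · exact h4.symm
  · exact absurd h3.symm (orbit_inj hX h4 ha)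

/-- `eo` depends on the residue modulo `M (kk X + 1)` only -/
theorem eo_congr {X Y : ℕ} (hX : 0 < X) (hY : 0 < Y) (h : Y ≡ X [MOD M (kk X + 1)]) :
    eo Y = eo X := by
  have hk : kk Y = kk X := kk_congr (a := 0) hX hY (by simpa using h)
  obtain ⟨h1, h2⟩ := eo_spec hX
  refine eo_unique hY (by rwa [hk]) ?_
  rw [hk]
  intro b hb
  have h3 : ∀ c, (2 ^ c * Y) % M (kk X + 1) = (2 ^ c * X) % M (kk X + 1) := fun c => h.mul_left _
  rw [h3, h3]
  exact h2 b hb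

/-- doubling changes the parity -/
theorem eo_two {X Y : ℕ} (hX : 0 < X) (hY : 0 < Y) (h : Y ≡ 2 * X [MOD M (kk X + 1)]) :
    (eo Y + eo X) % 2 = 1 := by
  have hk : kk Y = kk X := kk_congr (a := 1) hX hY (by simpa using h)
  obtain ⟨h1, h2⟩ := eo_spec hX
  have h3 : ∀ c, (2 ^ c * Y) % M (kk X + 1) = (2 ^ (c + 1) * X) % M (kk X + 1) := fun c => by
    have := h.mul_left (2 ^ c)
    rw [pow_succ, mul_assoc]
    exact this
  -- all elements of the orbit
  have h4 : ∀ c, (2 ^ eo X * X) % M (kk X + 1) ≤ (2 ^ c * X) % M (kk X + 1) := by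
    intro c
    have h5 : 2 ^ c * X ≡ 2 ^ (c % 2 ^ (kk X + 1)) * X [MOD M (kk X + 1)] :=
      (pow_mod_exp (kk X + 1) c).mul_right X
    rw [h5]
    exact h2 _ (Nat.mod_lt _ (by positivity))
  have hev : 2 ^ (kk X + 1) % 2 = 0 := by
    rw [pow_succ]
    exact Nat.mul_mod_left _ _
  rcases Nat.eq_zero_or_pos (eo X) with h0 | h0
  · -- the least element is `X`: the new place is `2 ^ (k + 1) - 1`
    have h5 : eo Y = 2 ^ (kk X + 1) - 1 := by
      have hN : 0 < 2 ^ (kk X + 1) := by positivity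
      refine eo_unique hY (by rw [hk]; omega) ?_
      rw [hk]
      intro b _
      rw [h3, h3]
      have h6 : 2 ^ (kk X + 1) - 1 + 1 = 2 ^ (kk X + 1) := by omega
      rw [h6]
      have h7 : 2 ^ 2 ^ (kk X + 1) * X ≡ 1 * X [MOD M (kk X + 1)] :=
        (two_pow_mod (kk X + 1)).mul_right X
      rw [h7]
      have h8 := h4 (b + 1)
      rw [h0] at h8
      simpa using h8
    have hN : 0 < 2 ^ (kk X + 1) := by positivity
    rw [h5, h0]
    omega
  · have h5 : eo Y = eo X - 1 := by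
      refine eo_unique hY (by rw [hk]; omega) ?_
      rw [hk]
      intro b _
      rw [h3, h3]
      have h6 : eo X - 1 + 1 = eo X := by omega
      rw [h6]
      exact h4 _
    rw [h5]
    omega

/-! ### `pit` -/

theorem pit_lt (t X : ℕ) : pit t X < 2 ^ t := by
  have h := Nat.findGreatest_le (P := fun P => P % 2 = 1 ∧
    ∃ a < 2 ^ t, (2 ^ a * P) % M t = X % M t) (2 ^ t - 1)
  have h2 : 0 < 2 ^ t := by positivity
  unfold pit
  omega

theorem pit_congr {t X Y : ℕ} (h : Y ≡ X [MOD M t]) : pit t Y = pit t X := by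
  unfold pit
  rw [show Y % M t = X % M t from h]

theorem eq_of_modEq {m u v : ℕ} (hu : 0 < u) (hu2 : u ≤ m) (hv : 0 < v) (hv2 : v ≤ m)
    (h : u ≡ v [MOD m]) : u = v := by
  rcases Nat.lt_or_ge u m with h1 | h1
  · rcases Nat.lt_or_ge v m with h2 | h2
    · exact h.eq_of_lt_of_lt h1 h2
    · have h3 : v = m := le_antisymm hv2 h2
      subst h3
      have h4 : u % v = v % v := h
      rw [Nat.mod_self, Nat.mod_eq_of_lt h1] at h4
      omega
  · have h3 : u = m := le_antisymm hu2 h1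
    subst h3
    rcases Nat.lt_or_ge v u with h2 | h2
    · have h4 : u % u = v % u := h
      rw [Nat.mod_self, Nat.mod_eq_of_lt h2] at h4
      omega
    · exact le_antisymm h2 hv2

/-- uniqueness of the value, one case -/
theorem pit_unique_aux {t P P' a : ℕ} (hP : P % 2 = 1) (hP' : P' % 2 = 1) (hPt : P < 2 ^ t)
    (hPt' : P' < 2 ^ t) (ha : a + t ≤ 2 ^ t) (h : P' ≡ 2 ^ a * P [MOD M t]) : P' = P := by
  have h1 := le_M t
  have h2 : 2 ^ a * P < M t + 1 := by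
    rw [M_add_one]
    calc 2 ^ a * P < 2 ^ a * 2 ^ t := Nat.mul_lt_mul_of_pos_left hPt (by positivity)
      _ = 2 ^ (a + t) := (pow_add _ _ _).symm
      _ ≤ 2 ^ 2 ^ t := Nat.pow_le_pow_right (by norm_num) ha
  have h3 : 0 < 2 ^ a * P := Nat.mul_pos (by positivity) (by omega)
  have h4 : P' = 2 ^ a * P := eq_of_modEq (by omega) (by omega) h3 (by omega) h
  rcases Nat.eq_zero_or_pos a with h5 | h5
  · rw [h4, h5]
    simp
  · obtain ⟨b, rfl⟩ : ∃ b, a = b + 1 := ⟨a - 1, by omega⟩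
    rw [pow_succ, mul_right_comm] at h4
    omega

theorem two_mul_le (t : ℕ) : 2 * t ≤ 2 ^ t + 1 := by
  induction t with
  | zero => norm_num
  | succ t ih =>
    rcases Nat.eq_zero_or_pos t with h | h
    · subst h
      norm_num
    · have h1 : 2 ≤ 2 ^ t := by
        calc 2 = 2 ^ 1 := by norm_num
          _ ≤ 2 ^ t := Nat.pow_le_pow_right (by norm_num) h
      rw [pow_succ]
      omega

/-- uniqueness of the value -/
theorem pit_unique {t P P' a : ℕ} (hP : P % 2 = 1) (hP' : P' % 2 = 1) (hPt : P < 2 ^ t)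
    (hPt' : P' < 2 ^ t) (h : P' ≡ 2 ^ a * P [MOD M t]) : P' = P := by
  have h0 : P' ≡ 2 ^ (a % 2 ^ t) * P [MOD M t] := h.trans ((pow_mod_exp t a).mul_right P)
  have ha : a % 2 ^ t < 2 ^ t := Nat.mod_lt _ (by positivity)
  generalize a % 2 ^ t = b at h0 ha
  by_cases hb : b + t ≤ 2 ^ t
  · exact pit_unique_aux hP hP' hPt hPt' hb h0
  · have h1 : 2 ^ (2 ^ t - b) * P' ≡ P [MOD M t] := by
      have h2 := h0.mul_left (2 ^ (2 ^ t - b))
      rw [← mul_assoc, ← pow_add] at h2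
      have h3 : 2 ^ t - b + b = 2 ^ t := by omega
      rw [h3] at h2
      have h4 := (two_pow_mod t).mul_right P
      rw [one_mul] at h4
      exact h2.trans h4
    have h5 := two_mul_le t
    exact (pit_unique_aux hP' hP hPt' hPt (by omega) h1.symm).symm

theorem pit_spec {t X : ℕ} (h : pit t X ≠ 0) :
    pit t X % 2 = 1 ∧ ∃ a, X ≡ 2 ^ a * pit t X [MOD M t] := by
  obtain ⟨h1, a, -, h3⟩ := Nat.findGreatest_of_ne_zero (P := fun P => P % 2 = 1 ∧
    ∃ a < 2 ^ t, (2 ^ a * P) % M t = X % M t) (n := 2 ^ t - 1) (rfl : _ = pit t X) h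
  exact ⟨h1, a, h3.symm⟩

theorem pit_eq {t X P a : ℕ} (hP : P % 2 = 1) (hPt : P < 2 ^ t) (h : X ≡ 2 ^ a * P [MOD M t]) :
    pit t X = P := by
  have h0 : pit t X ≠ 0 := by
    have h1 := Nat.le_findGreatest (P := fun P => P % 2 = 1 ∧
      ∃ a < 2 ^ t, (2 ^ a * P) % M t = X % M t) (m := P) (n := 2 ^ t - 1) (by omega)
      ⟨hP, a % 2 ^ t, Nat.mod_lt _ (by positivity),
        (h.trans ((pow_mod_exp t a).mul_right P)).symm⟩
    unfold pit
    omega
  obtain ⟨h1, b, h2⟩ := pit_spec h0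
  have h3 : 2 ^ b * pit t X ≡ 2 ^ a * P [MOD M t] := h2.symm.trans h
  have h4 : pit t X ≡ 2 ^ (b * (2 ^ t - 1) + a) * P [MOD M t] := by
    have h5 := h3.mul_left (2 ^ (b * (2 ^ t - 1)))
    rw [← mul_assoc, ← pow_add, ← mul_assoc, ← pow_add] at h5
    have h6 : b * (2 ^ t - 1) + b = 2 ^ t * b := by
      have h7 : 0 < 2 ^ t := by positivity
      obtain ⟨c, hc⟩ : ∃ c, 2 ^ t = c + 1 := ⟨2 ^ t - 1, by omega⟩
      rw [hc]
      simp
      ring
    rw [h6, pow_mul] at h5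
    have h8 := ((two_pow_mod t).pow b).mul_right (pit t X)
    rw [one_pow, one_mul] at h8
    exact h8.symm.trans h5
  exact pit_unique hP h1 hPt (pit_lt t X) h4

/-- `pit` is invariant under doubling -/
theorem pit_mul {t X Y a : ℕ} (h : Y ≡ 2 ^ a * X [MOD M t]) : pit t Y = pit t X := by
  have key : ∀ X Y a, Y ≡ 2 ^ a * X [MOD M t] → pit t X ≠ 0 → pit t Y = pit t X := by
    intro X Y a h h0
    obtain ⟨h1, b, h2⟩ := pit_spec h0
    refine pit_eq (a := a + b) h1 (pit_lt t X) (h.trans ?_)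
    rw [pow_add, mul_assoc]
    exact h2.mul_left _
  by_cases h0 : pit t X = 0
  · by_contra hc
    have h1 : pit t Y ≠ 0 := by
      rw [h0] at hc
      exact hc
    have h2 : X ≡ 2 ^ (a * (2 ^ t - 1)) * Y [MOD M t] := by
      have h5 := h.mul_left (2 ^ (a * (2 ^ t - 1)))
      rw [← mul_assoc, ← pow_add] at h5
      have h6 : a * (2 ^ t - 1) + a = 2 ^ t * a := by
        have h7 : 0 < 2 ^ t := by positivity
        obtain ⟨c, hc⟩ : ∃ c, 2 ^ t = c + 1 := ⟨2 ^ t - 1, by omega⟩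
        rw [hc]
        simp
        ring
      rw [h6, pow_mul 2 (2 ^ t) a] at h5
      have h8 := ((two_pow_mod t).pow a).mul_right X
      rw [one_pow, one_mul] at h8
      exact (h5.trans h8).symm
    have h3 := key _ _ _ h2 h1
    omega
  · exact key _ _ _ h h0

theorem pit_od {t X : ℕ} (hX : 0 < X) (h : od X < 2 ^ t) : pit t X = od X := by
  obtain ⟨h1, h2⟩ := exists_od hX
  refine pit_eq (a := val 2 X) h2 h ?_
  exact congrArg (· % _) h1

end Pool.Agent.Work.MP_69fea5_lc.C22
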