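import Pool.Agent.Work.MP_69fea5_lc.C22.State

/-!
Block [69fea5 C22]: Case A: `kk` is unbounded on every infinite subset of a solution.
-/

set_option autoImplicit false

namespace Pool.Agent.Work.MP_69fea5_lc.C22

open Pool.Agent.Work.MP_69fea5_lc

/-! ### odd parts of sums -/

theorem od_two {Z : ℕ} (hZ : 0 < Z) : od (2 * Z) = od Z := by
  obtain ⟨h1, h2⟩ := exists_od hZ
  conv_lhs => rw [h1]
  rw [← mul_assoc, ← pow_succ']
  exact od_mul h2

theorem od_add {A D s : ℕ} (hA : 0 < A) (hD : 2 ^ (val 2 A + s + 1) ∣ D) :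
    od (A + D) % 2 ^ s = od A % 2 ^ s := by
  obtain ⟨h1, h2⟩ := exists_od hA
  obtain ⟨D', hD'⟩ := hD
  have h3 : A + D = 2 ^ val 2 A * (od A + 2 ^ s * (2 * D')) := by
    rw [hD']
    conv_lhs => rw [h1]
    rw [val_mul2 h2]
    ring
  have h4 : (od A + 2 ^ s * (2 * D')) % 2 = 1 := by
    have h5 : 2 ^ s * (2 * D') = 2 * (2 ^ s * D') := by ring
    rw [h5]
    omega
  rw [h3, od_mul h4, Nat.add_mul_mod_self_left]

theorem od_sum_lt {x y : ℕ} (hx : 0 < x) (hy : 0 < y) (h : val 2 x < val 2 y) :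
    od (x + y) = od x + 2 ^ (val 2 y - val 2 x) * od y := by
  obtain ⟨h1, h2⟩ := exists_od hx
  obtain ⟨h3, -⟩ := exists_od hy
  have h5 : x + y = 2 ^ val 2 x * (od x + 2 ^ (val 2 y - val 2 x) * od y) := by
    have h6 : 2 ^ val 2 y = 2 ^ val 2 x * 2 ^ (val 2 y - val 2 x) := by
      rw [← pow_add]
      congr 1
      omega
    rw [Nat.mul_add, ← mul_assoc, ← h6, ← h1, ← h3]
  have h7 : (od x + 2 ^ (val 2 y - val 2 x) * od y) % 2 = 1 := by
    have h8 : 2 ∣ 2 ^ (val 2 y - val 2 x) * od y := (dvd_pow_self 2 (by omega)).mul_right _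
    omega
  conv_lhs => rw [h5]
  exact od_mul h7

theorem od_sum_eq {x y : ℕ} (hx : 0 < x) (hy : 0 < y) (h : val 2 x = val 2 y)
    (h4 : od x % 4 = od y % 4) : 2 * od (x + y) = od x + od y := by
  obtain ⟨h1, h2⟩ := exists_od hx
  obtain ⟨h3, h6⟩ := exists_od hy
  obtain ⟨w, hw⟩ : ∃ w, od x + od y = 2 * w := ⟨(od x + od y) / 2, by omega⟩
  have hw2 : w % 2 = 1 := by omega
  have h5 : x + y = 2 ^ (val 2 x + 1) * w := by
    rw [pow_succ, mul_assoc, ← hw, Nat.mul_add, ← h1, h, ← h3]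
  rw [h5, od_mul hw2, hw]

/-! ### tools -/

theorem sol_facts {c : ℕ → ℕ} {X : Set ℕ} (h : IsSolution c 2 X) :
    X.Infinite ∧ (∀ x ∈ X, 0 < x) ∧ ∃ i, (∀ x ∈ X, c x = i) ∧
      ∀ x ∈ X, ∀ y ∈ X, x ≠ y → c (x + y) = i := by
  obtain ⟨h1, h2, i, h3⟩ := h
  refine ⟨h1, h2, i, fun x hx => ?_, fun x hx y hy hxy => ?_⟩
  · have := h3 {x} (by simpa using hx) (by simp) (by simp)
    simpa using this
  · have := h3 {x, y} (by
      intro t ht
      simp only [Finset.coe_insert, Finset.coe_singleton, Set.mem_insert_iff,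
        Set.mem_singleton_iff] at ht
      rcases ht with rfl | rfl
      · exact hx
      · exact hy) (by simp) (Finset.card_le_two)
    rwa [Finset.sum_pair hxy] at this

theorem pigeon {Y : Set ℕ} (hY : Y.Infinite) (f : ℕ → ℕ) (N : ℕ) (h : ∀ x ∈ Y, f x < N) :
    ∃ r, {x | x ∈ Y ∧ f x = r}.Infinite := by
  by_contra hc
  push Not at hc
  apply hY
  have h1 : Y ⊆ ⋃ r ∈ Finset.range N, {x | x ∈ Y ∧ f x = r} := by
    intro x hx
    simp only [Set.mem_iUnion, Finset.mem_range, Set.mem_ofPred_eq, exists_prop]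
    exact ⟨f x, h x hx, hx, rfl⟩
  refine Set.Finite.subset ?_ h1
  exact Set.Finite.biUnion (Finset.range N).finite_toSet (fun r _ => hc r)

theorem exists_gt {Y : Set ℕ} (hY : Y.Infinite) (N : ℕ) : ∃ y ∈ Y, N < y :=
  hY.exists_gt N

/-- large odd parts among the numbers with a given power of two -/
theorem exists_od_gt {Y : Set ℕ} {v : ℕ} (hY : Y.Infinite) (hpos : ∀ x ∈ Y, 0 < x)
    (hv : ∀ x ∈ Y, val 2 x = v) (N : ℕ) : ∃ y ∈ Y, N < od y := by
  obtain ⟨y, hy, h⟩ := exists_gt hY (2 ^ v * N)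
  refine ⟨y, hy, ?_⟩
  have h1 := (exists_od (hpos y hy)).1
  rw [hv y hy] at h1
  rw [h1] at h
  exact lt_of_mul_lt_mul_left h (Nat.zero_le _)

variable {g : ℕ → ℕ} {k s : ℕ}

theorem good_iff {P a b : ℕ} (hs : IsLast g k s) (ha : 2 ^ s ≤ a) (hb : 2 ^ s ≤ b)
    (hab : b % 2 ^ s = a % 2 ^ s) (hod : od (b - P) % 2 ^ s = od (a - P) % 2 ^ s) :
    Good g k P a ↔ Good g k P b := by
  unfold Good
  rw [tau_eq hs ha, tau_eq hs hb, hab, hod]

theorem good_add {P a D : ℕ} (hs : IsLast g k s) (ha : 2 ^ s ≤ a) (hP : P < 2 ^ s)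
    (hD : 2 ^ (val 2 (a - P) + s + 1) ∣ D) : Good g k P a ↔ Good g k P (a + D) := by
  have h1 : 2 ^ s ∣ D := (pow_dvd_pow 2 (by omega)).trans hD
  refine good_iff hs ha (by omega) ?_ ?_
  · obtain ⟨D', rfl⟩ := h1
    exact Nat.add_mul_mod_self_left _ _ _
  · have h2 : a + D - P = (a - P) + D := by omega
    rw [h2]
    exact od_add (by omega) hD

/-- the contradiction of Case A -/
theorem caseA_core {Y : Set ℕ} (hY : Y.Infinite) (hpos : ∀ x ∈ Y, 0 < x)
    (hk : ∀ x ∈ Y, kk x = k) (hs : IsLast g k s)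
    (hr : ∀ x ∈ Y, ∀ y ∈ Y, y ≡ x [MOD M (s + k + 2)])
    (hth : ∀ x ∈ Y, ∀ y ∈ Y, x ≠ y → (th g (x + y) + th g x) % 2 = 1) : False := by
  -- sums
  have hsum : ∀ x ∈ Y, ∀ y ∈ Y, ∀ t ≤ s + k + 2, x + y ≡ 2 ^ 1 * x [MOD M t] := by
    intro x hx y hy t ht
    have h1 : y ≡ x [MOD M t] := (hr x hx y hy).of_dvd (M_dvd ht)
    have h2 := h1.add_left x
    rw [pow_one, two_mul]
    exact h2
  have hksum : ∀ x ∈ Y, ∀ y ∈ Y, kk (x + y) = kk x := by
    intro x hx y hy
    have h1 := hpos x hx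
    refine kk_congr (a := 1) h1 (by omega) ?_
    rw [hk x hx]
    exact hsum x hx y hy _ (by omega)
  have hpsum : ∀ x ∈ Y, ∀ y ∈ Y, ∀ r ≤ s, pit r (x + y) = pit r x := fun x hx y hy r hr' =>
    pit_mul (hsum x hx y hy r (by omega))
  have hpr : ∀ x ∈ Y, ∀ y ∈ Y, ∀ r ≤ s, pit r y = pit r x := fun x hx y hy r hr' =>
    pit_congr ((hr x hx y hy).of_dvd (M_dvd (by omega)))
  by_cases hI : {x | x ∈ Y ∧ 2 ^ s ≤ od x}.Infinite
  · -- large odd parts
    set Y1 := {x | x ∈ Y ∧ 2 ^ s ≤ od x} with hY1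
    obtain ⟨x0, hx0, hx0'⟩ := hI.nonempty
    set p := st g x0 s with hp
    have hst1 : ∀ x ∈ Y1, st g x x = p := by
      intro x hx
      exact (st_common (hpos x0 hx0) (hpos x hx.1) (by rw [hk x0 hx0]; exact hs)
        (by rw [hk x hx.1, hk x0 hx0]) (hpr x0 hx0 x hx.1) hx0' hx.2).1
    have hst2 : ∀ x ∈ Y1, ∀ y ∈ Y1, 2 ^ s ≤ od (x + y) → st g (x + y) (x + y) = p := by
      intro x hx y hy h
      refine (st_common (hpos x0 hx0) (Nat.add_pos_left (hpos x hx.1) y)
        (by rw [hk x0 hx0]; exact hs) ?_ ?_ hx0' h).1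
      · rw [hksum x hx.1 y hy.1, hk x hx.1, hk x0 hx0]
      · intro r hr'
        rw [hpsum x hx.1 y hy.1 r hr', hpr x0 hx0 x hx.1 r hr']
    have hP : p.1 < 2 ^ s := st_fst_lt2 s
    have contra : ∀ x ∈ Y1, ∀ y ∈ Y1, x ≠ y → 2 ^ s ≤ od (x + y) →
        (Good g k p.1 (od x) ↔ Good g k p.1 (od (x + y))) → False := by
      intro x hx y hy hxy h1 h2
      have h3 := hth x hx.1 y hy.1 hxy
      have h4 : th g x = stp g k p (od x) := by
        unfold th
        rw [hst1 x hx, hk x hx.1]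
      have h5 : th g (x + y) = stp g k p (od (x + y)) := by
        unfold th
        rw [hst2 x hx y hy h1, hksum x hx.1 y hy.1, hk x hx.1]
      rw [h4, h5] at h3
      unfold stp at h3
      simp only [h2] at h3
      omega
    by_cases hv : ∀ m, ∃ y ∈ Y1, m ≤ val 2 y
    · -- `val` unbounded
      obtain ⟨x, hx⟩ := hI.nonempty
      obtain ⟨y, hy, hy'⟩ := hv (val 2 x + (val 2 (od x - p.1) + s + 1))
      have hxpos := hpos x hx.1
      have h1 := od_sum_lt hxpos (hpos y hy.1) (by omega)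
      have h2 : 2 ^ s ≤ od (x + y) := by
        rw [h1]
        exact le_trans hx.2 (Nat.le_add_right _ _)
      refine contra x hx y hy (fun h => by subst h; omega) h2 ?_
      rw [h1]
      refine good_add hs hx.2 hP ?_
      exact (pow_dvd_pow 2 (by omega)).mul_right _
    · push Not at hv
      obtain ⟨m, hm⟩ := hv
      obtain ⟨v, hv⟩ := pigeon hI (val 2) m hm
      obtain ⟨r, hr4⟩ := pigeon hv (fun x => od x % 4) 4 (fun x _ => Nat.mod_lt _ (by norm_num))
      set Y2 := {x | x ∈ {x | x ∈ Y1 ∧ val 2 x = v} ∧ od x % 4 = r} with hY2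
      have hsum2 : ∀ x ∈ Y2, ∀ y ∈ Y2, 2 * od (x + y) = od x + od y := by
        intro x hx y hy
        exact od_sum_eq (hpos x hx.1.1.1) (hpos y hy.1.1.1) (by rw [hx.1.2, hy.1.2])
          (by rw [hx.2, hy.2])
      by_cases hu : ∀ m, ∃ y ∈ Y2, m ≤ val 2 (od y - p.1)
      · obtain ⟨x, hx, hx'⟩ := hu (s + 1)
        obtain ⟨y, hy, hy'⟩ := hu (val 2 (od x - p.1) + s + 1)
        have hxl := hx.1.1.2
        have hyl := hy.1.1.2
        have h1 := hsum2 x hx y hy
        have h2 : 2 ^ s ≤ od (x + y) := by omega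
        refine contra x hx.1.1 y hy.1.1 (fun h => by subst h; omega) h2 ?_
        have h3 : 2 * (od (x + y) - p.1) = (od x - p.1) + (od y - p.1) := by omega
        have hdx : 2 ^ (val 2 (od x - p.1)) ∣ od x - p.1 := by
          obtain ⟨h4, -⟩ := exists_od (X := od x - p.1) (by omega)
          exact ⟨_, h4⟩
        have hdy : 2 ^ (val 2 (od y - p.1)) ∣ od y - p.1 := by
          obtain ⟨h4, -⟩ := exists_od (X := od y - p.1) (by omega)
          exact ⟨_, h4⟩
        refine good_iff hs hxl h2 ?_ ?_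
        · have h4 : 2 ^ (s + 1) ∣ 2 * (od (x + y) - p.1) := by
            rw [h3]
            exact Nat.dvd_add ((pow_dvd_pow 2 hx').trans hdx)
              ((pow_dvd_pow 2 (by omega)).trans hdy)
          rw [pow_succ'] at h4
          have h5 : 2 ^ s ∣ od (x + y) - p.1 := Nat.dvd_of_mul_dvd_mul_left (by norm_num) h4
          have h6 : 2 ^ s ∣ od x - p.1 := (pow_dvd_pow 2 (by omega)).trans hdx
          have h7 : p.1 ≡ od (x + y) [MOD 2 ^ s] := (Nat.modEq_iff_dvd' (by omega)).2 h5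
          have h8 : p.1 ≡ od x [MOD 2 ^ s] := (Nat.modEq_iff_dvd' (by omega)).2 h6
          exact h7.symm.trans h8
        · rw [← od_two (Z := od (x + y) - p.1) (by omega), h3]
          refine od_add (by omega) ?_
          exact (pow_dvd_pow 2 (by omega)).trans hdy
      · push Not at hu
        obtain ⟨e, he⟩ := hu
        obtain ⟨q, hq⟩ := pigeon hr4 (fun x => od x % 2 ^ (e + s + 3)) (2 ^ (e + s + 3))
          (fun x _ => Nat.mod_lt _ (by positivity))
        obtain ⟨x, hx⟩ := hq.nonempty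
        have hx2 : x ∈ Y2 := hx.1
        obtain ⟨y, hy, hy'⟩ := exists_od_gt hq (fun z hz => hpos z hz.1.1.1.1)
          (fun z hz => hz.1.1.2) (od x)
        have hy2 : y ∈ Y2 := hy.1
        have h1 := hsum2 x hx2 y hy2
        have h2 : 2 ^ (e + s + 3) ∣ od y - od x := by
          refine (Nat.modEq_iff_dvd' hy'.le).1 ?_
          exact hx.2.trans hy.2.symm
        obtain ⟨D, hD⟩ := h2
        have h3 : od (x + y) = od x + 2 ^ (e + s + 2) * D := by
          have h4 : 2 ^ (e + s + 3) * D = 2 * (2 ^ (e + s + 2) * D) := by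
            rw [pow_succ]
            ring
          omega
        have h5 : 2 ^ s ≤ od (x + y) := by
          rw [h3]
          exact le_trans hx2.1.1.2 (Nat.le_add_right _ _)
        refine contra x hx2.1.1 y hy2.1.1 (fun h => by subst h; omega) h5 ?_
        rw [h3]
        refine good_add hs hx2.1.1.2 hP ?_
        have h6 := he x hx2
        exact (pow_dvd_pow 2 (by omega)).mul_right _
  · -- small odd parts
    have hII : {x | x ∈ Y ∧ od x < 2 ^ s}.Infinite := by
      intro hfin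
      apply hY
      rw [Set.not_infinite] at hI
      refine (hI.union hfin).subset (fun x hx => ?_)
      rcases Nat.lt_or_ge (od x) (2 ^ s) with h | h
      · exact Or.inr ⟨hx, h⟩
      · exact Or.inl ⟨hx, h⟩
    obtain ⟨P, hP⟩ := pigeon hII od (2 ^ s) (fun x hx => hx.2)
    obtain ⟨x, hx⟩ := hP.nonempty
    -- a number with a large power of two
    obtain ⟨y, hy, hy'⟩ : ∃ y ∈ {x | x ∈ {x | x ∈ Y ∧ od x < 2 ^ s} ∧ od x = P},
        val 2 x + s + 1 ≤ val 2 y := by
      obtain ⟨y, hy, hy'⟩ := exists_gt hP (2 ^ (val 2 x + s + 1) * P)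
      refine ⟨y, hy, ?_⟩
      by_contra hc
      push Not at hc
      have h1 := (exists_od (hpos y hy.1.1)).1
      rw [hy.2] at h1
      have h2 : 2 ^ val 2 y * P ≤ 2 ^ (val 2 x + s + 1) * P :=
        Nat.mul_le_mul_right _ (Nat.pow_le_pow_right (by norm_num) hc.le)
      omega
    have hxY : x ∈ Y := hx.1.1
    have hyY : y ∈ Y := hy.1.1
    have hx0 := hpos x hxY
    have hy0 := hpos y hyY
    have h1 := od_sum_lt hx0 hy0 (by omega)
    set d := val 2 y - val 2 x with hd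
    rw [hx.2, hy.2] at h1
    have hPodd : P % 2 = 1 := by
      have := (exists_od hx0).2
      rwa [hx.2] at this
    have h2 : 2 ^ s ≤ od (x + y) := by
      rw [h1]
      have h3 : 2 ^ s ≤ 2 ^ d := Nat.pow_le_pow_right (by norm_num) (by omega)
      have h4 : 2 ^ d * 1 ≤ 2 ^ d * P := Nat.mul_le_mul_left _ (by omega)
      omega
    have h3 := st_ext (g := g) (s := s) hx0 (Nat.add_pos_left hx0 y)
      (by rw [hk x hxY]; exact hs) (hksum x hxY y hyY) (hpsum x hxY y hyY) hx.1.2 h2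
    have h4 : th g (x + y) = th g x := by
      have h5 : Good g k (od x) (od (x + y)) := by
        right
        rw [tau_eq hs h2, h1, hx.2]
        constructor
        · have h6 : 2 ^ d * P = 2 ^ s * (2 ^ (d - s) * P) := by
            rw [← mul_assoc, ← pow_add]
            congr 2
            omega
          rw [h6]
          exact Nat.add_mul_mod_self_left _ _ _
        · rw [Nat.add_sub_cancel_left, od_mul hPodd]
      unfold th at h3 ⊢
      rw [h3, hksum x hxY y hyY, hk x hxY]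
      unfold stp
      simp only
      rw [if_pos h5, Nat.add_zero]
    have h6 := hth x hxY y hyY (fun h => by subst h; omega)
    rw [h4] at h6
    omega

/-- Case A -/
theorem caseA {X : Set ℕ} (hg : Function.Injective g) (hsol : IsSolution (c22 g) 2 X) (K : ℕ) :
    {x | x ∈ X ∧ kk x ≤ K}.Finite := by
  by_contra hinf
  have hinf' : {x | x ∈ X ∧ kk x ≤ K}.Infinite := hinf
  obtain ⟨-, hpos, i, hc1, hc2⟩ := sol_facts hsol
  obtain ⟨k, hk⟩ := pigeon hinf' kk (K + 1) (fun x hx => Nat.lt_succ_of_le hx.2)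
  obtain ⟨s, hs⟩ := exists_last hg k
  obtain ⟨r, hr⟩ := pigeon hk (fun x => x % M (s + k + 2)) (M (s + k + 2))
    (fun x _ => Nat.mod_lt _ (M_pos _))
  refine caseA_core hr (fun x hx => hpos x hx.1.1.1) (fun x hx => hx.1.2) hs
    (fun x hx y hy => hy.2.trans hx.2.symm) ?_
  intro x hx y hy hxy
  have hx0 := hpos x hx.1.1.1
  have h1 := hc1 x hx.1.1.1
  have h2 := hc2 x hx.1.1.1 y hy.1.1.1 hxy
  have h3 : (eo (x + y) + eo x) % 2 = 1 := by
    refine eo_two hx0 (Nat.add_pos_left hx0 y) ?_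
    have h4 : y ≡ x [MOD M (s + k + 2)] := hy.2.trans hx.2.symm
    have h5 : kk x = k := hx.1.2
    rw [h5, two_mul]
    exact (h4.of_dvd (M_dvd (by omega))).add_left x
  unfold c22 at h1 h2
  omega

end Pool.Agent.Work.MP_69fea5_lc.C22
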