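import Mathlib
import Pool.Agent.Work.MP_69fea5_lc.Prim

/-!
Block [69fea5 C22]: the two-colouring for sums of at most two terms: definitions.

`g : ℕ → ℕ` is an injective function; every solution for sums of at most two terms of the
colouring `c22 g` computes the range of `g`.
-/

set_option autoImplicit false

namespace Pool.Agent.Work.MP_69fea5_lc.C22

open Pool.Agent.Work.MP_69fea5_lc

/-- the moduli -/
def M (t : ℕ) : ℕ := 2 ^ 2 ^ t - 1

/-- the greatest `k` such that `M k` divides `X` (for `X > 0`) -/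
def kk (X : ℕ) : ℕ := Nat.findGreatest (fun k => X % M k = 0) X

/-- the odd part (for `X > 0`) -/
def od (X : ℕ) : ℕ := X / 2 ^ val 2 X

/-- the place of the least element of the orbit of `X` under doubling modulo `M (kk X + 1)` -/
def eo (X : ℕ) : ℕ :=
  Nat.findGreatest (fun a => ∀ b < 2 ^ (kk X + 1),
    (2 ^ a * X) % M (kk X + 1) ≤ (2 ^ b * X) % M (kk X + 1)) (2 ^ (kk X + 1) - 1)

/-- the odd `P < 2 ^ t` such that `X = 2 ^ a P` modulo `M t` for some `a`; 0 if there is none -/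
def pit (t X : ℕ) : ℕ :=
  Nat.findGreatest (fun P => P % 2 = 1 ∧ ∃ a < 2 ^ t, (2 ^ a * P) % M t = X % M t) (2 ^ t - 1)

/-- the last stage below `log Q` -/
def tau (g : ℕ → ℕ) (k Q : ℕ) : ℕ := Nat.findGreatest (fun t => g t < k ∧ 2 ^ t ≤ Q) Q

/-- the steps from `P` to `Q` which are not counted -/
def Good (g : ℕ → ℕ) (k P Q : ℕ) : Prop :=
  P = 0 ∨ (Q % 2 ^ tau g k Q = P % 2 ^ tau g k Q ∧ od (Q - P) % 2 ^ tau g k Q = P % 2 ^ tau g k Q)

instance (g : ℕ → ℕ) (k P Q : ℕ) : Decidable (Good g k P Q) := by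
  unfold Good
  infer_instance

/-- the number of counted steps after the step from `p.1` to `Q` -/
def stp (g : ℕ → ℕ) (k : ℕ) (p : ℕ × ℕ) (Q : ℕ) : ℕ := p.2 + if Good g k p.1 Q then 0 else 1

/-- the last value of `pit` and the number of counted steps, for the stages up to `t` -/
def st (g : ℕ → ℕ) (X : ℕ) : ℕ → ℕ × ℕ
  | 0 => (0, 0)
  | t + 1 =>
    if g (t + 1) < kk X ∧ 2 ^ (t + 1) ≤ od X ∧ pit (t + 1) X ≠ 0 ∧
        pit (t + 1) X ≠ (st g X t).1 then
      (pit (t + 1) X, stp g (kk X) (st g X t) (pit (t + 1) X))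
    else st g X t

/-- the number of counted steps of `X` -/
def th (g : ℕ → ℕ) (X : ℕ) : ℕ := stp g (kk X) (st g X X) (od X)

/-- the colouring with two colours -/
def c22 (g : ℕ → ℕ) (X : ℕ) : ℕ := (eo X + th g X) % 2

theorem c22_lt (g : ℕ → ℕ) (X : ℕ) : c22 g X < 2 := Nat.mod_lt _ (by norm_num)

end Pool.Agent.Work.MP_69fea5_lc.C22
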