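import Pool.Agent.Work.MP_69fea5_lc.C22.Arith

/-!
Block [69fea5 C22]: the states.
-/

set_option autoImplicit false

namespace Pool.Agent.Work.MP_69fea5_lc.C22

open Pool.Agent.Work.MP_69fea5_lc

variable {g : ℕ → ℕ} {X Y k s t : ℕ}

/-- `s` is the last number with `g s < k` (or 0) -/
def IsLast (g : ℕ → ℕ) (k s : ℕ) : Prop := (∀ t, g t < k → t ≤ s) ∧ (s = 0 ∨ g s < k)

theorem exists_last (hg : Function.Injective g) (k : ℕ) : ∃ s, IsLast g k s := by
  have hfin : {t | g t < k}.Finite := by
    have h1 : {t | g t < k} = g ⁻¹' (Set.Iio k) := rfl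
    rw [h1]
    exact (Set.finite_Iio k).preimage hg.injOn
  rcases {t | g t < k}.eq_empty_or_nonempty with h | h
  · refine ⟨0, fun t ht => ?_, Or.inl rfl⟩
    have : t ∈ {t | g t < k} := ht
    rw [h] at this
    exact absurd this (Set.notMem_empty t)
  · obtain ⟨s, hs, hmax⟩ := hfin.exists_maximalFor id _ h
    refine ⟨s, fun t ht => ?_, Or.inr hs⟩
    by_contra hc
    push Not at hc
    have := hmax (j := t) ht hc.le
    simp only [id] at this
    omega

theorem tau_eq (h : IsLast g k s) {Q : ℕ} (hQ : 2 ^ s ≤ Q) : tau g k Q = s := by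
  unfold tau
  rw [Nat.findGreatest_eq_iff]
  refine ⟨?_, ?_, ?_⟩
  · have := Nat.lt_two_pow_self (n := s)
    omega
  · intro h0
    exact ⟨h.2.resolve_left h0, hQ⟩
  · rintro n hn _ ⟨h1, -⟩
    have := h.1 n h1
    omega

theorem st_fst_lt (hX : 0 < X) (t : ℕ) : (st g X t).1 < od X := by
  induction t with
  | zero => exact od_pos hX
  | succ t ih =>
    unfold st
    split_ifs with h
    · exact lt_of_lt_of_le (pit_lt _ _) h.2.1
    · exact ih

theorem st_fst_lt2 (t : ℕ) : (st g X t).1 < 2 ^ t := by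
  induction t with
  | zero => simp [st]
  | succ t ih =>
    unfold st
    split_ifs with h
    · exact pit_lt _ _
    · exact lt_of_lt_of_le ih (Nat.pow_le_pow_right (by norm_num) (Nat.le_succ t))

/-- odd values -/
theorem st_fst_odd (t : ℕ) : (st g X t).1 = 0 ∨ (st g X t).1 % 2 = 1 := by
  induction t with
  | zero => exact Or.inl rfl
  | succ t ih =>
    unfold st
    split_ifs with h
    · exact Or.inr (pit_spec h.2.2.1).1
    · exact ih

/-- the state at the end -/
theorem st_stab (hst : s ≤ t)
    (h : ∀ r, s < r → r ≤ t → ¬ (g r < kk X ∧ 2 ^ r ≤ od X)) : st g X t = st g X s := by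
  induction t with
  | zero =>
    have : s = 0 := by omega
    rw [this]
  | succ t ih =>
    rcases Nat.eq_or_lt_of_le hst with h1 | h1
    · rw [h1]
    · rw [← ih (by omega) (fun r hr hr2 => h r hr (by omega))]
      conv_lhs => unfold st
      rw [if_neg]
      rintro ⟨h2, h3, -⟩
      exact h (t + 1) h1 le_rfl ⟨h2, h3⟩

theorem st_end (_hX : 0 < X) (h : ∀ r, g r < kk X → 2 ^ r ≤ od X → r ≤ s) :
    st g X X = st g X s := by
  rcases Nat.le_total s X with h1 | h1
  · exact st_stab h1 (fun r hr _ h2 => by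
      have := h r h2.1 h2.2
      omega)
  · refine (st_stab h1 (fun r hr _ h2 => ?_)).symm
    have h3 := Nat.lt_two_pow_self (n := r)
    have h4 := od_le X
    omega

/-- states of two numbers with the same values -/
theorem st_congr (hk : kk Y = kk X)
    (h : ∀ r ≤ t, g r < kk X → pit r Y = pit r X ∧ (2 ^ r ≤ od Y ↔ 2 ^ r ≤ od X)) :
    st g Y t = st g X t := by
  induction t with
  | zero => rfl
  | succ t ih =>
    have ih' := ih (fun r hr => h r (by omega))
    unfold st
    rw [ih', hk]
    by_cases h1 : g (t + 1) < kk X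
    · obtain ⟨h2, h3⟩ := h (t + 1) le_rfl h1
      rw [h2]
      simp only [h3]
    · rw [if_neg (fun h2 => h1 h2.1), if_neg (fun h2 => h1 h2.1)]

/-- the common case: both odd parts are at least `2 ^ s` -/
theorem st_common (hX : 0 < X) (hY : 0 < Y) (hs : IsLast g (kk X) s) (hk : kk Y = kk X)
    (hp : ∀ r ≤ s, pit r Y = pit r X) (h1 : 2 ^ s ≤ od X) (h2 : 2 ^ s ≤ od Y) :
    st g Y Y = st g X s ∧ st g X X = st g X s := by
  have hle : ∀ r ≤ s, 2 ^ r ≤ 2 ^ s := fun r hr => Nat.pow_le_pow_right (by norm_num) hr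
  refine ⟨?_, st_end hX (fun r hr _ => hs.1 r hr)⟩
  rw [st_end hY (s := s) (fun r hr _ => hs.1 r (hk ▸ hr))]
  refine st_congr hk (fun r hr _ => ⟨hp r hr, ?_⟩)
  have := hle r hr
  exact ⟨fun _ => by omega, fun _ => by omega⟩

/-- the extension: `od X < 2 ^ s ≤ od Y` -/
theorem st_ext (hX : 0 < X) (hY : 0 < Y) (hs : IsLast g (kk X) s) (hk : kk Y = kk X)
    (hp : ∀ r ≤ s, pit r Y = pit r X) (h1 : od X < 2 ^ s) (h2 : 2 ^ s ≤ od Y) :
    st g Y Y = (od X, th g X) := by
  have hle : ∀ r ≤ s, 2 ^ r ≤ 2 ^ s := fun r hr => Nat.pow_le_pow_right (by norm_num) hr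
  have hlt := st_fst_lt (g := g) hX X
  have hX0 := od_pos hX
  have key : ∀ t ≤ s, (2 ^ t ≤ od X → st g Y t = st g X t) ∧ (od X < 2 ^ t →
      (st g Y t = st g X X ∨ st g Y t = (od X, th g X)) ∧
      (g t < kk X → 0 < t → st g Y t = (od X, th g X))) := by
    intro t
    induction t with
    | zero =>
      intro _
      refine ⟨fun _ => rfl, fun h3 => ?_⟩
      simp at h3
      omega
    | succ t ih =>
      intro hts
      obtain ⟨ih1, ih2⟩ := ih (by omega)
      refine ⟨fun h3 => ?_, fun h3 => ?_⟩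
      · refine st_congr hk (fun r hr _ => ⟨hp r (by omega), ?_⟩)
        have h4 : 2 ^ r ≤ 2 ^ (t + 1) := Nat.pow_le_pow_right (by norm_num) hr
        have h5 := hle (t + 1) hts
        exact ⟨fun _ => by omega, fun _ => by omega⟩
      · have h4 : st g Y t = st g X X ∨ st g Y t = (od X, th g X) := by
          rcases Nat.lt_or_ge (od X) (2 ^ t) with h5 | h5
          · exact (ih2 h5).1
          · left
            rw [ih1 h5]
            refine (st_end hX (fun r _ hr => ?_)).symm
            by_contra hc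
            have h6 : 2 ^ (t + 1) ≤ 2 ^ r := Nat.pow_le_pow_right (by norm_num) (by omega)
            omega
        have h5 : pit (t + 1) Y = od X := by
          rw [hp _ hts]
          exact pit_od hX h3
        have h6 : 2 ^ (t + 1) ≤ od Y := (hle _ hts).trans h2
        have h7 : g (t + 1) < kk X → st g Y (t + 1) = (od X, th g X) := by
          intro h8
          unfold st
          rw [h5, hk]
          rcases h4 with h9 | h9
          · rw [if_pos ⟨h8, h6, by omega, by rw [h9]; omega⟩, h9]
            rfl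
          · rw [if_neg (fun h10 => h10.2.2.2 (by rw [h9])), h9]
        refine ⟨?_, fun h8 _ => h7 h8⟩
        by_cases h8 : g (t + 1) < kk X
        · exact Or.inr (h7 h8)
        · have h9 : st g Y (t + 1) = st g Y t := by
            conv_lhs => unfold st
            rw [if_neg]
            rintro ⟨h10, -⟩
            exact h8 (hk ▸ h10)
          rw [h9]
          exact h4
  have hs0 : s ≠ 0 := by
    rintro rfl
    simp at h1
    omega
  rw [st_end hY (s := s) (fun r hr _ => hs.1 r (hk ▸ hr))]
  exact ((key s le_rfl).2 h1).2 (hs.2.resolve_left hs0) (by omega)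

end Pool.Agent.Work.MP_69fea5_lc.C22
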